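import Pool.Agent.Results.MP_ccb155_nt.SparserExceptions
import Pool.Agent.U513.AP.Sparse

/-!
# The distance from `ξ e ^ n` to the integers, for `n` near integral polynomials at simultaneous approximations

The starting file bounds the number of the `n ≤ X` for which this distance is at most `exp (-(c n))`. Here: for all points `α` outside
of a set of small Hausdorff dimension, it is larger than `exp (-(c n))` for ALL natural numbers `n` near integral polynomials at ALL
approximations of `α` with a large denominator.
-/

set_option autoImplicit false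

open Finset

namespace Pool.Agent.Results.MP_ccb155_nt.Approximations

open Pool.Agent.U513.AP
open Pool.Agent.Results.MP_ccb155_nt.SparserExceptions (dz)

/-- For every real `ξ ≠ 0`, `m ≥ 1`, `c > 0` and `0 < κ` with `κ (m + 1) (m - 1 + c m) < c m - 1`, the property
the distance from `ξ e ^ n` to the nearest integer is larger than `exp (-(c n))` holds at approximations outside of exceptional sets
of exponent `1 - κ`. -/
theorem result (ξ : ℝ) (hξ : ξ ≠ 0) (m : ℕ) (c κ : ℝ) (hm : 1 ≤ m) (hc : 0 < c) (hκ0 : 0 < κ)
    (hκ : κ * ((m + 1) * (m - 1 + c * m)) < c * m - 1) :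
    AtApproximations (ι := Unit) (1 - κ) (fun _ n => Real.exp (-(c * n)) < dz (ξ * Real.exp n)) := by
  classical
  obtain ⟨_, D, h⟩ := (SparserExceptions.result ξ hξ).1 m c κ hm hc hκ0 hκ
  have hm0 : (1 : ℝ) ≤ m := by exact_mod_cast hm
  have hκ1 : κ < 1 := by
    by_contra hcon
    push Not at hcon
    have h1 : (0 : ℝ) ≤ (m + 1) * (m - 1 + c * m) := by
      have : (0 : ℝ) ≤ m - 1 := by linarith
      positivity
    have h2 := mul_le_mul_of_nonneg_right hcon h1
    have h3 : 0 ≤ c * m := by positivity
    nlinarith
  refine sparse_law_pow hκ1.le _ fun _ => ⟨D, 1, fun X hX => ?_⟩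
  refine (ncard_le_filter fun n _ _ hn => ?_).trans (h X hX)
  exact not_lt.1 hn

end Pool.Agent.Results.MP_ccb155_nt.Approximations
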